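import Pool.Agent.MP_c69980_ag.H43.Spec1

/-! Row Hom: homogenisation. -/

set_option autoImplicit false

namespace Pool.Agent.MP_c69980_ag.H43

open MvPolynomial H60 Finset

theorem sHom : SHom := by
  intro M ι _ c b P N hN
  have hm : ∀ m ∈ P.support, ∀ i, m i ≤ N := fun m h i =>
    ((monomial_le_degreeOf i h).trans (degreeOf_le_totalDegree P i)).trans hN
  refine ⟨∑ m ∈ P.support, C (coeff m P) * ∏ i, (X (c i) ^ m i * X (b i) ^ (N - m i)),
    IsHomogeneous.sum _ _ _ fun m h => ?_, fun k hk => Cf.sum _ fun m _ => (cf_C (hk m)).mul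
      (Cf.prod _ fun i _ => ((cf_X _).pow _).mul ((cf_X _).pow _)), fun A _ _ y hy => ?_⟩
  · have := IsHomogeneous.prod univ
      (fun i => (X (c i) ^ m i * X (b i) ^ (N - m i) : MvPolynomial (Fin M) ℂ)) (fun _ => N)
      fun i _ => by
        have := (isHomogeneous_X_pow (R := ℂ) (c i) (m i)).mul
          (isHomogeneous_X_pow (b i) (N - m i))
        rwa [Nat.add_sub_cancel' (hm m h i)] at this
    rw [sum_const, card_univ, smul_eq_mul, mul_comm] at this
    exact this.C_mul _
  · rw [aeval_def (fun i => y (c i) / y (b i)), eval₂_eq', mul_sum, map_sum]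
    refine sum_congr rfl fun m h => ?_
    rw [map_mul, aeval_C, map_prod, mul_left_comm, ← prod_pow, ← prod_mul_distrib]
    refine congrArg _ (prod_congr rfl fun i _ => ?_)
    rw [map_mul, map_pow, map_pow, aeval_X, aeval_X, div_pow, pow_sub₀ _ (hy i) (hm m h i)]
    ring

end Pool.Agent.MP_c69980_ag.H43
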