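import Pool.Agent.MP_c69980_ag.H43.Spec9

/-!
The differences of independent points of the divisors and of the leaf are generic.
-/

set_option autoImplicit false

namespace Pool.Agent.MP_c69980_ag.H43

open H60 Finset

section Abs
variable {A Ω : Type} [CommRing A] [Field Ω]

/-- `E` is a derivation along `τ`. -/
structure DomD (τ : A →+* Ω) (E : A → Ω) : Prop where
  add : ∀ a b, E (a + b) = E a + E b
  mul : ∀ a b, E (a * b) = τ a * E b + τ b * E a

variable {τ : A →+* Ω} {E : A → Ω}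

lemma DomD.adj (h : DomD τ E) {F : Type} [Field F] [Algebra F A]
    (hF : ∀ c, E (algebraMap F A c) = 0) {s : Set A} (hs : ∀ a ∈ s, E a = 0) :
    ∀ a ∈ Algebra.adjoin F s, E a = 0 := fun a ha => by
  induction ha using Algebra.adjoin_induction with
  | mem x hx => exact hs x hx
  | algebraMap c => exact hF c
  | add x y _ _ a b => rw [h.add, a, b, add_zero]
  | mul x y _ _ a b => rw [h.mul, a, b, mul_zero, mul_zero, add_zero]

lemma DomD.poly (h : DomD τ E) {R : Type} [CommRing R] (φ : R →+* A) (h0 : ∀ r, E (φ r) = 0)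
    (x : A) (p : Polynomial R) :
    E (p.eval₂ φ x) = τ ((Polynomial.derivative p).eval₂ φ x) * E x := by
  induction p using Polynomial.induction_on with
  | C a => simp [h0]
  | add p q hp hq => rw [Polynomial.eval₂_add, h.add, hp, hq, map_add, Polynomial.eval₂_add,
      map_add, add_mul]
  | monomial n a ih =>
    rw [pow_succ, ← mul_assoc, Polynomial.derivative_mul, Polynomial.eval₂_mul, h.mul, ih]
    simp only [Polynomial.eval₂_add, Polynomial.eval₂_mul, Polynomial.eval₂_X,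
      Polynomial.derivative_X, mul_one, map_add, map_mul]
    ring

lemma DomD.alg (h : DomD τ E) (hk : ∀ a, τ a = 0 → E a = 0) {R : Type} [CommRing R] [IsDomain R]
    [CharZero R] (φ : R →+* A) (h0 : ∀ r, E (φ r) = 0) (hi : ∀ r, τ (φ r) = 0 → r = 0) {x : A}
    {p : Polynomial R} (hp : p ≠ 0) (hz : τ (p.eval₂ φ x) = 0) : E x = 0 := by
  by_contra hx
  induction hn : p.natDegree using Nat.strong_induction_on generalizing p with
  | _ n ih =>
    by_cases h1 : p.natDegree = 0
    · rw [Polynomial.eq_C_of_natDegree_eq_zero h1] at hp hz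
      rw [Polynomial.eval₂_C] at hz
      exact hp (by rw [hi _ hz, map_zero])
    · have h2 := hk _ hz
      rw [h.poly φ h0] at h2
      exact ih _ (hn ▸ Polynomial.natDegree_derivative_lt h1) (Polynomial.derivative_ne_zero.2 h1)
        ((mul_eq_zero.1 h2).resolve_right hx) rfl

lemma dom_mk {k ι : Type} [CommRing k] [Algebra k Ω] [Fintype ι] (ρ : A →+* Ω)
    (D : Derivation k Ω Ω) (δ : ι → A → A) (ha : ∀ l a b, δ l (a + b) = δ l a + δ l b)
    (hm : ∀ l a b, δ l (a * b) = a * δ l b + b * δ l a) (c : ι → Ω) :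
    DomD ρ fun a => D (ρ a) - ∑ l, c l * ρ (δ l a) := by
  refine ⟨fun a b => ?_, fun a b => ?_⟩
  · simp only [ha, map_add, mul_add, sum_add_distrib]
    ring
  · simp only [hm, map_add, map_mul, Derivation.leibniz, smul_eq_mul, mul_add, sum_add_distrib,
      mul_sub, mul_sum, mul_left_comm]
    ring

lemma dom_opt {F σ : Type} [Field F] [Algebra F A] (x : A) (z : σ → A)
    (P : MvPolynomial (Option σ) F) :
    (MvPolynomial.optionEquivLeft F σ P).eval₂
      (MvPolynomial.aeval z : MvPolynomial σ F →ₐ[F] A).toRingHom x =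
      MvPolynomial.aeval (fun o : Option σ => o.elim x z) P := by
  induction P using MvPolynomial.induction_on with
  | C c => simp
  | add p q hp hq => rw [map_add, Polynomial.eval₂_add, hp, hq, map_add]
  | mul_X p o hp =>
    rw [map_mul, Polynomial.eval₂_mul, hp, map_mul]
    cases o <;> simp

variable {F : Type} [Field F] [CharZero F] [Algebra F Ω]

lemma dom_ext {ι : Type} {e : ι → Ω} (he : AlgebraicIndependent F e) (a : ι → Ω) :
    ∃ D : Derivation F Ω Ω, ∀ i, D (e i) = a i := by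
  obtain ⟨s, h1, h2⟩ := exists_isTranscendenceBasis_superset (R := F) he.to_subtype_range
  obtain ⟨D, hD⟩ := der_exists h2 fun z : s => Function.extend e a 0 z
  exact ⟨D, fun i => (hD ⟨e i, h1 ⟨i, rfl⟩⟩).trans (he.injective.extend_apply _ _ i)⟩

omit [CharZero F] in
lemma dom_sum {P : Type} [Fintype P] (c : P → Ω) (D : P → Derivation F Ω Ω) (z : Ω) :
    (∑ p, c p • D p) z = ∑ p, c p * D p z := by
  have := congrFun (map_sum Derivation.coeFnAddMonoidHom (fun p => c p • D p) univ) z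
  rwa [Finset.sum_apply] at this

lemma dom_cnt {κ P Q : Type} [Fintype κ] [Fintype P] [Fintype Q] (x : κ → Ω)
    (D : P → Derivation F Ω Ω) (n : P → Q → Ω) (m : ℕ)
    (hm : Fintype.card Q + m ≤ Fintype.card P)
    (h : ∀ c : P → Ω, (∀ q, ∑ p, c p * n p q = 0) → (∀ i, (∑ p, c p • D p) (x i) = 0) → c = 0) :
    ∃ σ : Fin m → κ, AlgebraicIndependent F fun i => x (σ i) := by
  classical
  obtain ⟨B, hB⟩ := (AlgebraicIndependent.matroid F Ω).exists_isBasis (Set.range x)
  obtain ⟨h1, h2, h3⟩ := AlgebraicIndependent.matroid_isBasis_iff.1 hB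
  have := ((Set.finite_range x).subset h2).fintype
  have hli : LinearIndependent Ω fun p => (Sum.elim (n p) fun z : B => D p z) := by
    refine Fintype.linearIndependent_iff.2 fun c hc => congrFun (h c (fun q => ?_) fun i => ?_)
    · simpa using congrFun hc (Sum.inl q)
    · have hE : DomD (RingHom.id Ω) (∑ p, c p • D p : Derivation F Ω Ω) :=
        ⟨map_add _, fun a b => Derivation.leibniz _ a b⟩
      obtain ⟨p, hp, hz⟩ := h3 _ ⟨i, rfl⟩
      have : CharZero (Algebra.adjoin F B) :=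
        charZero_of_injective_algebraMap (algebraMap F _).injective
      refine hE.alg (fun a ha => by rw [show a = 0 from ha, map_zero])
        (algebraMap (Algebra.adjoin F B) Ω) (fun r => hE.adj (Derivation.map_algebraMap _)
          (fun a ha => ?_) _ r.2) (fun r hr => Subtype.ext hr) hp hz
      rw [dom_sum]
      simpa using congrFun hc (Sum.inr ⟨a, ha⟩)
  have h4 := hli.fintype_card_le_finrank
  rw [Module.finrank_fintype_fun_eq_card, Fintype.card_sum] at h4
  obtain ⟨g⟩ := Function.Embedding.nonempty_of_card_le (α := Fin m) (β := B) (by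
    rw [Fintype.card_fin]; omega)
  choose σ hσ using fun i => h2 (g i).2
  refine ⟨σ, ?_⟩
  rw [funext hσ]
  exact AlgebraicIndependent.comp h1 g g.injective

end Abs

section Tot
variable {K Ω : Type} [Field K] [Field Ω] {V : ValuationSubring K} (τ : V →+* Ω) {x y : K}

lemma dom_tot (h : x ∈ V) : tot τ x = τ ⟨x, h⟩ := dif_pos h

lemma dom_add (hx : x ∈ V) (hy : y ∈ V) : tot τ (x + y) = tot τ x + tot τ y := by
  rw [dom_tot τ hx, dom_tot τ hy, dom_tot τ (add_mem hx hy), ← map_add]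
  rfl

lemma dom_mul (hx : x ∈ V) (hy : y ∈ V) : tot τ (x * y) = tot τ x * tot τ y := by
  rw [dom_tot τ hx, dom_tot τ hy, dom_tot τ (mul_mem hx hy), ← map_mul]
  rfl

lemma dom_one : tot τ 1 = 1 := (dom_tot τ (one_mem V)).trans (map_one τ)

lemma dom_zero : tot τ 0 = 0 := (dom_tot τ (zero_mem V)).trans (map_zero τ)

lemma dom_aeval [Algebra ℂ K] [Algebra ℂ Ω] {ι : Type} {z : ι → K} (hz : ∀ i, z i ∈ V)
    (h1 : ∀ c, algebraMap ℂ K c ∈ V) (h2 : ∀ c, tot τ (algebraMap ℂ K c) = algebraMap ℂ Ω c)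
    (P : MvPolynomial ι ℂ) : MvPolynomial.aeval z P ∈ V ∧
      tot τ (MvPolynomial.aeval z P) = MvPolynomial.aeval (fun i => tot τ (z i)) P := by
  induction P using MvPolynomial.induction_on with
  | C c => simpa using ⟨h1 c, h2 c⟩
  | add p q hp hq =>
    rw [map_add, map_add, dom_add τ hp.1 hq.1, hp.2, hq.2]
    exact ⟨add_mem hp.1 hq.1, rfl⟩
  | mul_X p i hp =>
    rw [map_mul, map_mul, MvPolynomial.aeval_X, MvPolynomial.aeval_X, dom_mul τ hp.1 (hz i), hp.2]
    exact ⟨mul_mem hp.1 (hz i), rfl⟩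

end Tot

section Vf
variable {t M g : ℕ} (P : Fin g → CI M t → CP M t) {A : Type} [Field A] [Algebra ℂ A]

lemma dom_vf1 (v : Fin g → ℂ) (y : CI M t → A) (x : CI M t) :
    vf P (fun i => algebraMap ℂ A (v i)) y x =
      MvPolynomial.aeval y (∑ i, MvPolynomial.C (v i) * P i x) := by
  simp [vf, map_sum]

lemma dom_vf2 {s : ℕ} (c : Fin s → A) (v : Fin s → Fin g → A) (y : CI M t → A) (x : CI M t) :
    vf P (fun i => ∑ l, c l * v l i) y x = ∑ l, c l * vf P (v l) y x := by
  simp only [vf, sum_mul, mul_sum, mul_assoc]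
  exact sum_comm

end Vf

section Pts
variable {t a M : ℕ} {w : Fin M → Option (Fin t)} {Θ : Pt t a → Fin M → ℂ} {PP : PT M t a}
  {K : Type} [Field K] [Algebra ℂ K] {u : Fin M → K} {F : IntermediateField ℂ K} {r : ℕ}
  {lam : Fin (r + 1) → Pt t a} {d : Fin (r + 1) → Derivation ℂ K K} {f : Fin (r + 1) → K}
  {Ω : Type} [Field Ω] [Algebra ℂ Ω]

/-- The velocity of the generic point of the leaf. -/
lemma dom_A (hb : BX w Θ PP u F lam d f) (τ₀ : K →ₐ[ℂ] Ω) (D : Derivation ℂ Ω Ω)
    (hD : ∀ x ∈ F, D (τ₀ x) = 0) (c : Fin (r + 1) → Ω)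
    (hf : ∀ l', D (τ₀ (f l')) = ∑ l, c l * τ₀ (d l (f l'))) :
    Vel w PP D (τ₀ ∘ u) fun i => ∑ l, c l * algebraMap ℂ Ω (lam l i) := by
  have hE := dom_mk (τ₀ : K →+* Ω) D (fun l => d l) (fun l => map_add _)
    (fun l => Derivation.leibniz _) c
  have key : ∀ x, D (τ₀ x) = ∑ l, c l * τ₀ (d l x) := fun x => by
    obtain ⟨p, hp, hz⟩ := hb.tb.isAlgebraic.1 x
    have : CharZero (Algebra.adjoin F (Set.range f)) :=
      charZero_of_injective_algebraMap (algebraMap ℂ _).injective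
    refine sub_eq_zero.1 (hE.alg (fun a ha => ?_) (algebraMap (Algebra.adjoin F (Set.range f)) K)
      (fun r => hE.adj (F := F) (fun z => ?_) ?_ _ r.2)
      (fun r hr => Subtype.ext ((map_eq_zero _).1 hr)) hp ((map_eq_zero _).2 hz))
    · rw [(map_eq_zero _).1 ha]
      simp
    · have h1 := hD _ z.2
      have h2 := (hb.cst _).1 z.2
      simp [h1, h2]
    · rintro _ ⟨l', rfl⟩
      exact sub_eq_zero.2 (hf l')
  intro β hβ x
  have h1 : Ch w β u := fun o => ⟨(hβ o).1, fun e => (hβ o).2 (by simp [e])⟩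
  have h2 : co β (τ₀ ∘ u) = fun x => τ₀ (co β u x) := funext fun x => by simp [co]
  rw [h2, key, dom_vf2]
  refine sum_congr rfl fun l _ => ?_
  rw [hb.vel l β h1, dom_vf1, dom_vf1, MvPolynomial.comp_aeval_apply]

variable {β : Cht M t} {V : ValuationSubring K} {y : Fin r → CI M t} {q : K} {l₀ : Fin (r + 1)}
  {τ : V →+* Ω}

lemma dom_B (hb : BX w Θ PP u F lam d f) (hT : DvT w u F d β V y q l₀)
    (hS : DvS u F d β V y q l₀) (hk : ∀ x : V, τ x = 0 ↔ V.valuation (x : K) < 1)
    (D : Derivation ℂ Ω Ω) (hD : ∀ x ∈ F, D (tot τ x) = 0) (c : Fin (r + 1) → Ω)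
    (hc : ∑ l, c l * tot τ (d l q) = 0)
    (hy : ∀ i, D (tot τ (co β u (y i))) = ∑ l, c l * tot τ (d l (co β u (y i)))) (x : CI M t) :
    D (tot τ (co β u x)) = ∑ l, c l * tot τ (d l (co β u x)) := by
  have hV : ∀ z ∈ RF F (co β u), z ∈ V := fun z hz => by
    induction hz using Algebra.adjoin_induction with
    | mem z h => obtain ⟨i, rfl⟩ := h; exact hT.cV i
    | algebraMap c => exact hT.fV _ c.2
    | add _ _ _ _ a b => exact add_mem a b
    | mul _ _ _ _ a b => exact mul_mem a b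
  obtain ⟨ρ, hρ⟩ : ∃ ρ : RF F (co β u) →+* Ω, ∀ z, ρ z = tot τ z :=
    ⟨τ.comp ((RF F (co β u)).val.toRingHom.codRestrict V fun z => hV _ z.2),
      fun z => (dom_tot τ (hV _ z.2)).symm⟩
  have hz : ∀ z ∈ V, tot τ z = 0 ↔ V.valuation z < 1 := fun z h => by rw [dom_tot τ h, hk]
  have hE := dom_mk ρ D (fun l z => ⟨d l z, hS.pres l _ z.2⟩)
    (fun l a b => Subtype.ext (map_add _ _ _))
    (fun l a b => Subtype.ext (Derivation.leibniz _ _ _)) c
  simp only [hρ] at hE
  let v : CI M t → RF F (co β u) := fun x => ⟨co β u x, Algebra.subset_adjoin ⟨x, rfl⟩⟩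
  obtain ⟨P, hP, hP'⟩ := hS.alg _ (hT.cV x)
  have : CharZero F := algebraRat.charZero _
  refine sub_eq_zero.1 (hE.alg (x := v x) (fun z h => ?_)
    (MvPolynomial.aeval (v ∘ y) : MvPolynomial (Fin r) F →ₐ[F] _).toRingHom
    (fun R => hE.adj (F := F) (s := Set.range (v ∘ y)) (fun z => ?_) ?_ _ ?_) (fun R hR => ?_)
    ((map_ne_zero_iff _ (MvPolynomial.optionEquivLeft F (Fin r)).injective).2 hP) ?_)
  · rw [hρ] at h
    have m1 := fun l => hV _ (hS.pres l _ z.2)
    have m2 := fun l => hV _ (hS.pres l _ hT.mem)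
    have h1 : tot τ (d l₀ q) ≠ 0 := fun e => ((hz _ (m2 l₀)).1 e).ne hT.tr
    have h2 : ∀ l, tot τ (d l z) * tot τ (d l₀ q) = tot τ (d l₀ z) * tot τ (d l q) := fun l => by
      have h3 := (hz _ (sub_mem (mul_mem (m1 l) (m2 l₀)) (mul_mem (m1 l₀) (m2 l)))).2
        (hS.prop _ z.2 ((hz _ (hV _ z.2)).1 h) l l₀)
      rw [← dom_mul τ (m1 l) (m2 l₀), ← dom_mul τ (m1 l₀) (m2 l),
        ← sub_add_cancel (d l z * d l₀ q) (d l₀ z * d l q), dom_add τ
          (sub_mem (mul_mem (m1 l) (m2 l₀)) (mul_mem (m1 l₀) (m2 l))) (mul_mem (m1 l₀) (m2 l)),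
        h3, zero_add]
    rw [h, map_zero, zero_sub, neg_eq_zero]
    refine mul_right_cancel₀ h1 ?_
    simp only [sum_mul, mul_assoc, h2, mul_left_comm (c _), ← mul_sum, hc, mul_zero, zero_mul]
  · have h1 := hD _ z.2
    have h2 := (hb.cst _).1 z.2
    change D (tot τ (z : K)) - ∑ l, c l * tot τ (d l (z : K)) = 0
    simp [h1, h2, dom_zero]
  · rintro _ ⟨i, rfl⟩
    exact sub_eq_zero.2 (hy i)
  · rw [Algebra.adjoin_range_eq_range_aeval]
    exact ⟨R, rfl⟩
  · by_contra h0
    rw [hρ, hz _ (hV _ (Subtype.prop _))] at hR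
    refine hR.ne (Eq.trans ?_ (hT.res R h0))
    exact congrArg _ (MvPolynomial.comp_aeval_apply _ (RF F (co β u)).val _)
  · rw [dom_opt, hρ, hz _ (hV _ (Subtype.prop _))]
    refine Eq.trans_lt ?_ hP'
    refine congrArg _ ((MvPolynomial.comp_aeval_apply _ (RF F (co β u)).val _).trans ?_)
    congr 2
    funext o
    cases o <;> rfl

omit [Algebra ℂ Ω] in
lemma dom_co (hT : DvF w u F β V y) :
    Ch w β (fun c => tot τ (co β u (c, none))) ∧
      co β (fun c => tot τ (co β u (c, none))) = fun x => tot τ (co β u x) := by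
  have h1 : ∀ o, tot τ (co β u (β o, none)) ≠ 0 := fun o e => by
    have h2 := dom_mul τ (hT.cV (β o, none)) (hT.cV (β none, o))
    rw [e, zero_mul, co, co, div_mul_div_cancel₀ (hT.ch none).2, div_self (hT.ch o).2,
      dom_one] at h2
    exact one_ne_zero h2
  refine ⟨fun o => ⟨(hT.ch o).1, h1 o⟩, funext fun x => ?_⟩
  rw [co, div_eq_iff (h1 _), ← dom_mul τ (hT.cV _) (hT.cV _)]
  simp only [co]
  rw [div_mul_div_cancel₀ (hT.ch x.2).2]

lemma dom_on (hu : OnG w Θ u) (hT : DvF w u F β V y)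
    (h2 : ∀ c, tot τ (algebraMap ℂ K c) = algebraMap ℂ Ω c) :
    OnG w Θ fun c => tot τ (co β u (c, none)) := by
  refine ⟨fun o => ⟨β o, (dom_co hT).1 o⟩, fun G e h3 h4 => ?_⟩
  rw [← (dom_aeval τ (fun c => hT.cV (c, none)) (fun c => hT.fV _ (F.algebraMap_mem c)) h2 G).2]
  have h5 := (hu.smul (inv_ne_zero (hT.ch none).2)).eqs G e h3 h4
  rw [show (fun c => co β u (c, none)) = (u (β none))⁻¹ • u from
    funext fun c => div_eq_inv_mul _ _, h5, dom_zero]

end Pts

theorem sDom : SDom := by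
  intro t a M w Θ PP K _ _ u F r lam d f β V y q l₀ Ω _ _ τ₀ τ gk hb hv hI
  classical
  have hC : ∀ j c, tot (τ j) (algebraMap ℂ K c) = algebraMap ℂ Ω c := fun j c => by
    rw [hI.cF j _ (F.algebraMap_mem c), AlgHom.commutes]
  have o0 : OnG w Θ (τ₀ ∘ u) :=
    ⟨fun o => let ⟨b, h1, h2⟩ := hb.on.blk o; ⟨b, h1, by simpa using h2⟩, fun G e h1 h2 => by
      rw [Function.comp_def, ← MvPolynomial.comp_aeval_apply, hb.on.eqs G e h1 h2, map_zero]⟩
  have o1 := fun j => dom_on hb.on (hv j).1.toDvF (hC j)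
  refine ⟨o0, o1, fun b l hbS hL => ?_⟩
  have : CharZero (F.map τ₀) := algebraRat.charZero _
  choose D hD using fun p : Option (Fin (r + 1)) × Fin (r + 1) => dom_ext hI.ind
    (Sum.elim (fun l' => if p.1 = none then τ₀ (d p.2 (f l')) else 0) fun z =>
      if p.1 = some z.1 then tot (τ z.1) (d p.2 (co (β z.1) u (y z.1 z.2))) else 0)
  refine dom_cnt (fun z : Fin (r + 1) × Fin M => b z.1 z.2 / ∑ c, l z.1 c • b z.1 c) D
    (fun p (j : Fin (r + 1)) => if p.1 = some j then tot (τ j) (d p.2 (q j)) else 0) _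
    (by simp only [Fintype.card_prod, Fintype.card_option, Fintype.card_fin]; nlinarith)
    fun c h1 h2 => ?_
  obtain ⟨D', hD'⟩ : ∃ D' : Derivation ℂ Ω Ω, ∀ z, D' z = (∑ p, c p • D p) z :=
    ⟨(∑ p, c p • D p).restrictScalars ℂ, fun _ => rfl⟩
  have k0 : ∀ x ∈ F, D' (τ₀ x) = 0 := fun x hx => by
    rw [hD']
    exact Derivation.map_algebraMap _ (⟨τ₀ x, x, hx, rfl⟩ : F.map τ₀)
  have v0 := dom_A hb τ₀ D' k0 (fun l => c (none, l)) fun l' => by
    have := fun p => hD p (Sum.inl l')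
    simp only [Sum.elim_inl, Function.comp_apply] at this
    rw [hD', dom_sum]
    simp [this, Fintype.sum_prod_type]
  have n0 : ∀ j, ∑ l, c (some j, l) * tot (τ j) (d l (q j)) = 0 := fun j => by
    simpa [Fintype.sum_prod_type] using h1 j
  obtain ⟨k, -, hk⟩ := gk.ev.exists
  have v1 : ∀ j, Vel w PP D' (fun c => tot (τ j) (co (β j) u (c, none)))
      fun i => ∑ l, c (some j, l) * algebraMap ℂ Ω (lam l i) := fun j => by
    obtain ⟨c1, c2⟩ := dom_co (τ := τ j) (hv j).1.toDvF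
    refine hk.one Ω _ (D'.restrictScalars ℤ) _ (β j) (o1 j)
      (fun z _ => D'.map_algebraMap z) c1 fun x => ?_
    rw [c2, dom_vf2]
    refine (dom_B hb (hv j).1 (hv j).2 (hI.ker j) D' (fun x hx => by
      rw [hI.cF j x hx, k0 x hx]) _ (n0 j) (fun i => ?_) x).trans (sum_congr rfl fun l _ => ?_)
    · have := fun p => hD p (Sum.inr (j, i))
      simp only [Sum.elim_inr, Function.comp_apply] at this
      rw [hD', dom_sum]
      simp [this, Fintype.sum_prod_type]
    · rw [hb.vel l _ (hv j).1.ch, dom_vf1, dom_vf1, (dom_aeval (τ j) (hv j).1.cV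
        (fun c => (hv j).1.fV _ (F.algebraMap_mem c)) (hC j) _).2]
  have e1 : ∀ j l, c (some j, l) = c (none, l) := fun j => by
    obtain ⟨S, e, e', s1, s2⟩ := hbS j
    have s3 : b j ≠ 0 := fun h => hL j (by simp [h])
    obtain ⟨s4, s5⟩ := gk.sub.on Ω _ _ S e e' o0 (o1 j) s1 (s2 ▸ s3)
    have s6 := s5 D' _ _ v0 (v1 j)
    rw [← s2] at s4 s6
    obtain ⟨β', hβ'⟩ := exists_ch s4.blk
    have s7 := gk.imm Ω _ _ β' s4 hβ' fun x => by
      rw [← s6 β' hβ' x, co, ← div_div_div_cancel_right₀ (hL j), Derivation.leibniz_div, hD', hD',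
        h2 (j, x.1), h2 (j, β' x.2)]
      simp
    have s8 := Fintype.linearIndependent_iff.1
      ((linearIndependent_algebraMap_comp_iff (S := Ω)).2 hb.ind)
      (fun l => c (none, l) - c (some j, l)) (funext fun i => by
        have := congrFun s7 i
        simpa [sub_mul] using this)
    exact fun l => (sub_eq_zero.1 (s8 l)).symm
  have e2 : (fun l => c (none, l)) = 0 :=
    Matrix.eq_zero_of_mulVec_eq_zero hI.det (funext fun j => by
      have := n0 j
      simp only [e1] at this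
      simpa [Matrix.mulVec, dotProduct, mul_comm] using this)
  funext ⟨o, l⟩
  cases o with
  | none => exact congrFun e2 l
  | some j => exact (e1 j l).trans (congrFun e2 l)

end Pool.Agent.MP_c69980_ag.H43
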